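import Mathlib

set_option autoImplicit false

namespace Pool.Agent.Results.MP_4671c3_co.LogarithmicRank

open scoped DirectSum

/-- A finite set of triples (row, column, symbol). -/
abbrev Triples := Finset (ℕ × ℕ × ℕ)

/-- `P` is a partial latin square: any two coordinates of a triple in `P` determine the third. -/
def IsPLS (P : Triples) : Prop :=
  (∀ r c s s', (r, c, s) ∈ P → (r, c, s') ∈ P → s = s') ∧
  (∀ r c c' s, (r, c, s) ∈ P → (r, c', s) ∈ P → c = c') ∧
  (∀ r r' c s, (r, c, s) ∈ P → (r', c, s) ∈ P → r = r')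

/-- `(W, B)` is a latin bitrade. -/
structure IsBitrade (W B : Triples) : Prop where
  plsW : IsPLS W
  plsB : IsPLS B
  nonemptyW : W.Nonempty
  nonemptyB : B.Nonempty
  disj : W ∩ B = ∅
  cells : ∀ r c, (∃ s, (r, c, s) ∈ W) ↔ (∃ s, (r, c, s) ∈ B)
  rows : ∀ r s, (∃ c, (r, c, s) ∈ W) ↔ (∃ c, (r, c, s) ∈ B)
  cols : ∀ c s, (∃ r, (r, c, s) ∈ W) ↔ (∃ r, (r, c, s) ∈ B)

/-- `P` embeds in the abelian group `G`: there are maps from the rows, columns and symbols of `P`
to `G`, each injective, with `α r + β c = γ s` for every `(r, c, s) ∈ P`. -/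
def Embeds (P : Triples) (G : Type) [AddCommGroup G] : Prop :=
  ∃ α β γ : ℕ → G,
    Set.InjOn α {r | ∃ c s, (r, c, s) ∈ P} ∧
    Set.InjOn β {c | ∃ r s, (r, c, s) ∈ P} ∧
    Set.InjOn γ {s | ∃ r c, (r, c, s) ∈ P} ∧
    ∀ r c s, (r, c, s) ∈ P → α r + β c = γ s

/-- The ranks (minimal numbers of generators) of the finitely generated abelian groups in which
both `W` and `B` embed. -/
def commonRanks (W B : Triples) : Set ℕ :=
  {n | ∃ (G : Type) (_ : AddCommGroup G) (_ : AddGroup.FG G),
    AddGroup.rank G = n ∧ Embeds W G ∧ Embeds B G}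

/-- The least rank of an abelian group in which both `W` and `B` embed (meaningful when
`commonRanks W B` is nonempty). -/
noncomputable def rho (W B : Triples) : ℕ := sInf (commonRanks W B)

/-- Averaging: some element of a finite group is killed by at most half of a finite family of
nonzero homomorphisms. -/
lemma avg {δ U V : Type} [AddCommGroup U] [Fintype U] [AddCommGroup V] [DecidableEq V]
    (D : Finset δ) (e : δ → U →+ V) (h : ∀ d ∈ D, ∃ u, e d u ≠ 0) :
    ∃ u, 2 * (D.filter (fun d => e d u = 0)).card ≤ D.card := by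
  classical
  by_contra hcon
  push Not at hcon
  have h1 : ∀ d ∈ D, 2 * (Finset.univ.filter (fun u => e d u = 0)).card ≤ Fintype.card U := by
    intro d hd
    obtain ⟨u0, hu0⟩ := h d hd
    have h2 : (Finset.univ.filter (fun u => e d u = 0)).card ≤
        (Finset.univ.filter (fun u => ¬ e d u = 0)).card := by
      apply Finset.card_le_card_of_injOn (fun u => u + u0)
      · intro u hu
        have hu' := (Finset.mem_filter.mp (Finset.mem_coe.mp hu)).2
        apply Finset.mem_coe.mpr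
        apply Finset.mem_filter.mpr
        refine ⟨Finset.mem_univ _, ?_⟩
        rw [map_add, hu', zero_add]
        exact hu0
      · intro a _ b _ hab
        exact add_right_cancel hab
    have h3 := Finset.card_filter_add_card_filter_not (s := (Finset.univ : Finset U))
      (fun u => e d u = 0)
    rw [Finset.card_univ] at h3
    omega
  have h4 : ∑ u : U, (D.filter (fun d => e d u = 0)).card =
      ∑ d ∈ D, (Finset.univ.filter (fun u => e d u = 0)).card := by
    simp only [Finset.card_filter]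
    exact Finset.sum_comm
  have h5 : ∑ u : U, D.card < ∑ u : U, 2 * (D.filter (fun d => e d u = 0)).card :=
    Finset.sum_lt_sum_of_nonempty ⟨0, Finset.mem_univ _⟩ (fun u _ => hcon u)
  rw [← Finset.mul_sum, h4, Finset.mul_sum] at h5
  have h6 : ∑ d ∈ D, 2 * (Finset.univ.filter (fun u => e d u = 0)).card ≤
      ∑ d ∈ D, Fintype.card U := Finset.sum_le_sum h1
  rw [Finset.sum_const, smul_eq_mul] at h6
  rw [Finset.sum_const, smul_eq_mul, Finset.card_univ] at h5
  nlinarith

lemma iter {δ U V : Type} [AddCommGroup U] [Fintype U] [AddCommGroup V] [DecidableEq V]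
    (e : δ → U →+ V) : ∀ (n : ℕ) (D : Finset δ), D.card ≤ n → (∀ d ∈ D, ∃ u, e d u ≠ 0) →
    ∃ l : List U, (∀ d ∈ D, ∃ u ∈ l, e d u ≠ 0) ∧ (D.card = 0 → l.length = 0) ∧
      (0 < D.card → 2 ^ l.length ≤ 2 * D.card) := by
  intro n
  induction n with
  | zero =>
    intro D hD h
    have : D = ∅ := Finset.card_eq_zero.mp (Nat.le_zero.mp hD)
    subst this
    exact ⟨[], by simp, by simp, by simp⟩
  | succ n ih =>
    intro D hD h
    by_cases h0 : D.card = 0
    · have : D = ∅ := Finset.card_eq_zero.mp h0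
      subst this
      exact ⟨[], by simp, by simp, by simp⟩
    · obtain ⟨u, hu⟩ := avg D e h
      set D' := D.filter (fun d => e d u = 0) with hD'
      obtain ⟨l, hl1, hl2, hl3⟩ := ih D' (by omega) (fun d hd => h d (Finset.mem_filter.mp hd).1)
      refine ⟨u :: l, ?_, fun h' => absurd h' h0, fun _ => ?_⟩
      · intro d hd
        by_cases hdu : e d u = 0
        · obtain ⟨v, hv1, hv2⟩ := hl1 d (Finset.mem_filter.mpr ⟨hd, hdu⟩)
          exact ⟨v, List.mem_cons_of_mem _ hv1, hv2⟩
        · exact ⟨u, List.mem_cons_self, hdu⟩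
      · rw [List.length_cons, pow_succ]
        by_cases h1 : D'.card = 0
        · rw [hl2 h1]
          omega
        · have := hl3 (by omega)
          omega

/-- Multiplication by `M / q` is an injective homomorphism `ZMod q → ZMod M` when `q ∣ M`. -/
lemma zmod_hom (q M : ℕ) (hM : 0 < M) (h : q ∣ M) :
    ∃ f : ZMod q →+ ZMod M, ∀ x, x ≠ 0 → f x ≠ 0 := by
  obtain ⟨t, rfl⟩ := h
  have ht : 0 < t := Nat.pos_of_mul_pos_left hM
  let g : ℤ →+ ZMod (q * t) := (zmultiplesHom _) (t : ZMod (q * t))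
  have hg : g q = 0 := by
    simp only [g, zmultiplesHom_apply]
    have : ((q * t : ℕ) : ZMod (q * t)) = 0 := ZMod.natCast_self _
    rw [natCast_zsmul, nsmul_eq_mul]
    exact_mod_cast this
  refine ⟨ZMod.lift q ⟨g, hg⟩, ?_⟩
  intro x hx h0
  obtain ⟨y, rfl⟩ := ZMod.intCast_surjective x
  rw [ZMod.lift_coe] at h0
  apply hx
  simp only [g, zmultiplesHom_apply, zsmul_eq_mul] at h0
  have h1 : ((y * t : ℤ) : ZMod (q * t)) = 0 := by push_cast; exact h0
  rw [ZMod.intCast_zmod_eq_zero_iff_dvd] at h1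
  rw [ZMod.intCast_zmod_eq_zero_iff_dvd]
  push_cast at h1
  exact Int.dvd_of_mul_dvd_mul_right (by exact_mod_cast ht.ne') h1

/-- Finitely many nonzero elements of a finitely generated abelian group are separated from zero
by homomorphisms to one finite cyclic group. -/
lemma separate (G : Type) [AddCommGroup G] [AddGroup.FG G] (D : Finset G) (hD : (0 : G) ∉ D) :
    ∃ (M : ℕ) (_ : 0 < M) (κ : Type) (_ : Fintype κ) (ψ : κ → (G →+ ZMod M)),
      ∀ d ∈ D, ∃ j, ψ j d ≠ 0 := by
  classical
  obtain ⟨n, ι, fι, p, hp, e, ⟨f⟩⟩ := AddCommGroup.equiv_free_prod_directSum_zmod G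
  set T : ℕ := 1 + ∑ d ∈ D, ∑ j : Fin n, ((f d).1 j).natAbs with hT
  set Q : ℕ := ∏ i : ι, p i ^ e i with hQ
  have hqpos : ∀ i, 0 < p i ^ e i := fun i => pow_pos (hp i).pos _
  have hQpos : 0 < Q := Finset.prod_pos (fun i _ => hqpos i)
  have hTpos : 0 < T := by omega
  have hMpos : 0 < Q * T := Nat.mul_pos hQpos hTpos
  have hdiv : ∀ i, p i ^ e i ∣ Q * T := fun i =>
    (Finset.dvd_prod_of_mem (fun i => p i ^ e i) (Finset.mem_univ i)).mul_right T
  choose φ hφ using fun i => zmod_hom (p i ^ e i) (Q * T) hMpos (hdiv i)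
  refine ⟨Q * T, hMpos, Fin n ⊕ ι, inferInstance, fun j => Sum.casesOn j
    (fun a => (Int.castAddHom (ZMod (Q * T))).comp
      ((Finsupp.applyAddHom a).comp ((AddMonoidHom.fst _ _).comp f.toAddMonoidHom)))
    (fun i => (φ i).comp ((DFinsupp.evalAddMonoidHom i).comp
      ((AddMonoidHom.snd _ _).comp f.toAddMonoidHom))), ?_⟩
  intro d hd
  have hd0 : d ≠ 0 := fun h => hD (h ▸ hd)
  have hfd : f d ≠ 0 := fun h => hd0 (by simpa using h)
  by_cases h1 : (f d).1 = 0
  · have h2 : (f d).2 ≠ 0 := fun h => hfd (Prod.ext h1 h)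
    have h3 : ∃ i, (f d).2 i ≠ 0 := by
      by_contra hcon
      push Not at hcon
      exact h2 (DFinsupp.ext hcon)
    obtain ⟨i, hi⟩ := h3
    exact ⟨Sum.inr i, hφ i _ hi⟩
  · have h3 : ∃ j, (f d).1 j ≠ 0 := by
      by_contra hcon
      push Not at hcon
      exact h1 (Finsupp.ext hcon)
    obtain ⟨j, hj⟩ := h3
    refine ⟨Sum.inl j, ?_⟩
    show (((f d).1 j : ℤ) : ZMod (Q * T)) ≠ 0
    rw [Ne, ZMod.intCast_zmod_eq_zero_iff_dvd]
    intro hdvd
    have h4 : ((f d).1 j).natAbs < T := by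
      have e1 : ((f d).1 j).natAbs ≤ ∑ j : Fin n, ((f d).1 j).natAbs :=
        Finset.single_le_sum (f := fun j => ((f d).1 j).natAbs) (fun _ _ => Nat.zero_le _)
          (Finset.mem_univ j)
      have e2 : ∑ j : Fin n, ((f d).1 j).natAbs ≤ ∑ d ∈ D, ∑ j : Fin n, ((f d).1 j).natAbs :=
        Finset.single_le_sum (f := fun d => ∑ j : Fin n, ((f d).1 j).natAbs)
          (fun _ _ => Nat.zero_le _) hd
      omega
    have h5 := Int.natAbs_dvd_natAbs.mpr hdvd
    rw [Int.natAbs_natCast] at h5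
    have h6 := Nat.le_of_dvd (Int.natAbs_pos.mpr hj) h5
    have h7 : T ≤ Q * T := Nat.le_mul_of_pos_left T hQpos
    omega

/-- A finite set of nonzero elements of a finitely generated abelian group avoids the kernel of a
homomorphism to `(ZMod M)^r`, where `2 ^ r` is at most twice the number of elements. -/
lemma project (G : Type) [AddCommGroup G] [AddGroup.FG G] (D : Finset G) (hD : (0 : G) ∉ D) :
    ∃ (M r : ℕ) (χ : G →+ (Fin r → ZMod M)), 0 < M ∧ (∀ d ∈ D, χ d ≠ 0) ∧
      2 ^ r ≤ 2 * D.card + 1 := by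
  classical
  obtain ⟨M, hM, κ, fκ, ψ, hψ⟩ := separate G D hD
  have : NeZero M := ⟨hM.ne'⟩
  let e : G → ((κ → ZMod M) →+ ZMod M) := fun g =>
    { toFun := fun u => ∑ j, u j * ψ j g
      map_zero' := by simp
      map_add' := by intro u v; simp [add_mul, Finset.sum_add_distrib] }
  obtain ⟨l, hl1, hl2, hl3⟩ := iter e D.card D le_rfl (by
    intro d hd
    obtain ⟨j, hj⟩ := hψ d hd
    refine ⟨Pi.single j 1, ?_⟩
    show ∑ i, (Pi.single j 1 : κ → ZMod M) i * ψ i d ≠ 0
    rw [Finset.sum_eq_single j]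
    · rw [Pi.single_eq_same, one_mul]; exact hj
    · intro i _ hij
      rw [Pi.single_eq_of_ne hij, zero_mul]
    · intro h; exact absurd (Finset.mem_univ j) h)
  let χ : G →+ (Fin l.length → ZMod M) :=
    { toFun := fun g i => ∑ j, (l.get i) j * ψ j g
      map_zero' := by funext i; simp
      map_add' := by intro a b; funext i; simp [mul_add, Finset.sum_add_distrib] }
  refine ⟨M, l.length, χ, hM, ?_, ?_⟩
  · intro d hd h0
    obtain ⟨u, hu, hne⟩ := hl1 d hd
    obtain ⟨i, rfl⟩ := List.mem_iff_get.mp hu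
    exact hne (congrFun h0 i)
  · by_cases h : D.card = 0
    · rw [hl2 h]; omega
    · have := hl3 (by omega)
      omega

lemma rank_le_pi (M r : ℕ) (hM : 0 < M) : ∃ _ : AddGroup.FG (Fin r → ZMod M),
    AddGroup.rank (Fin r → ZMod M) ≤ r := by
  classical
  have : NeZero M := ⟨hM.ne'⟩
  refine ⟨inferInstance, ?_⟩
  let S : Finset (Fin r → ZMod M) := Finset.univ.image (fun i => Pi.single i 1)
  have hS : AddSubgroup.closure (S : Set (Fin r → ZMod M)) = ⊤ := by
    rw [eq_top_iff]
    intro f _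
    have hf : f = ∑ i, (f i).val • (Pi.single i 1 : Fin r → ZMod M) := by
      funext j
      rw [Finset.sum_apply, Finset.sum_eq_single j]
      · simp
      · intro i _ hij
        simp [Pi.single_eq_of_ne hij.symm]
      · intro h; exact absurd (Finset.mem_univ j) h
    rw [hf]
    apply AddSubgroup.sum_mem
    intro i _
    apply AddSubgroup.nsmul_mem
    apply AddSubgroup.subset_closure
    exact Finset.mem_coe.mpr (Finset.mem_image_of_mem _ (Finset.mem_univ i))
  refine (AddGroup.rank_le hS).trans ?_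
  exact Finset.card_image_le.trans (by simp)

/-- Differences of distinct values of `α` on the finite set `A`. -/
def diffs {G : Type} [AddCommGroup G] [DecidableEq G] (A : Finset ℕ) (α : ℕ → G) : Finset G :=
  ((A ×ˢ A).filter (fun p => p.1 ≠ p.2)).image (fun p => α p.1 - α p.2)

lemma diffs_card {G : Type} [AddCommGroup G] [DecidableEq G] (A : Finset ℕ) (α : ℕ → G) (n : ℕ)
    (h : A.card ≤ n) : (diffs A α).card ≤ n ^ 2 := by
  unfold diffs
  refine Finset.card_image_le.trans ((Finset.card_filter_le _ _).trans ?_)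
  rw [Finset.card_product, pow_two]
  exact Nat.mul_le_mul h h

lemma zero_notMem_diffs {G : Type} [AddCommGroup G] [DecidableEq G] (A : Finset ℕ) (α : ℕ → G)
    (S : Set ℕ) (hα : Set.InjOn α S) (hA : ∀ a ∈ A, a ∈ S) : (0 : G) ∉ diffs A α := by
  intro h
  obtain ⟨p, hp, h0⟩ := Finset.mem_image.mp h
  obtain ⟨h1, h2⟩ := Finset.mem_filter.mp hp
  rw [Finset.mem_product] at h1
  exact h2 (hα (hA _ h1.1) (hA _ h1.2) (sub_eq_zero.mp h0))

lemma injOn_of_diffs {G H : Type} [AddCommGroup G] [DecidableEq G] [AddCommGroup H]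
    (A : Finset ℕ) (α : ℕ → G) (S : Set ℕ) (hA : ∀ a ∈ S, a ∈ A) (χ : G →+ H)
    (h : ∀ d ∈ diffs A α, χ d ≠ 0) : Set.InjOn (fun a => χ (α a)) S := by
  intro a ha b hb hab
  by_contra hne
  refine h (α a - α b) (Finset.mem_image.mpr ⟨(a, b), Finset.mem_filter.mpr
    ⟨Finset.mem_product.mpr ⟨hA a ha, hA b hb⟩, hne⟩, rfl⟩) ?_
  rw [map_sub]
  exact sub_eq_zero.mpr hab

lemma embeds_of_project (P : Triples) (G : Type) [AddCommGroup G] [DecidableEq G]
    (h : Embeds P G) :
    ∃ D : Finset G, (0 : G) ∉ D ∧ D.card ≤ 3 * P.card ^ 2 ∧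
      ∀ (H : Type) [AddCommGroup H] (χ : G →+ H), (∀ d ∈ D, χ d ≠ 0) → Embeds P H := by
  classical
  obtain ⟨α, β, γ, hα, hβ, hγ, hrel⟩ := h
  set R := P.image (fun t => t.1) with hR
  set C := P.image (fun t => t.2.1) with hC
  set S := P.image (fun t => t.2.2) with hS
  refine ⟨diffs R α ∪ (diffs C β ∪ diffs S γ), ?_, ?_, ?_⟩
  · rw [Finset.mem_union, Finset.mem_union]
    rintro (h | h | h)
    · refine zero_notMem_diffs R α _ hα ?_ h
      intro a ha
      obtain ⟨⟨r, c, s⟩, ht, rfl⟩ := Finset.mem_image.mp ha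
      exact ⟨c, s, ht⟩
    · refine zero_notMem_diffs C β _ hβ ?_ h
      intro a ha
      obtain ⟨⟨r, c, s⟩, ht, rfl⟩ := Finset.mem_image.mp ha
      exact ⟨r, s, ht⟩
    · refine zero_notMem_diffs S γ _ hγ ?_ h
      intro a ha
      obtain ⟨⟨r, c, s⟩, ht, rfl⟩ := Finset.mem_image.mp ha
      exact ⟨r, c, ht⟩
  · have h1 := diffs_card R α P.card Finset.card_image_le
    have h2 := diffs_card C β P.card Finset.card_image_le
    have h3 := diffs_card S γ P.card Finset.card_image_le
    have h4 := Finset.card_union_le (diffs R α) (diffs C β ∪ diffs S γ)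
    have h5 := Finset.card_union_le (diffs C β) (diffs S γ)
    omega
  · intro H _ χ hχ
    refine ⟨fun a => χ (α a), fun a => χ (β a), fun a => χ (γ a), ?_, ?_, ?_, ?_⟩
    · apply injOn_of_diffs R
      · rintro a ⟨c, s, ht⟩
        exact Finset.mem_image.mpr ⟨_, ht, rfl⟩
      · intro d hd
        exact hχ d (Finset.mem_union_left _ hd)
    · apply injOn_of_diffs C
      · rintro a ⟨c, s, ht⟩
        exact Finset.mem_image.mpr ⟨_, ht, rfl⟩
      · intro d hd
        exact hχ d (Finset.mem_union_right _ (Finset.mem_union_left _ hd))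
    · apply injOn_of_diffs S
      · rintro a ⟨c, s, ht⟩
        exact Finset.mem_image.mpr ⟨_, ht, rfl⟩
      · intro d hd
        exact hχ d (Finset.mem_union_right _ (Finset.mem_union_right _ hd))
    · intro r c s ht
      show χ (α r) + χ (β c) = χ (γ s)
      rw [← map_add, hrel r c s ht]

lemma card_eq (W B : Triples) (h : IsBitrade W B) : B.card = W.card := by
  apply le_antisymm
  · have h1 : B.card ≤ (W.image (fun t => (t.1, t.2.1))).card := by
      apply Finset.card_le_card_of_injOn (fun t => (t.1, t.2.1))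
      · rintro ⟨r, c, s⟩ ht
        obtain ⟨s', hs'⟩ := (h.cells r c).mpr ⟨s, ht⟩
        exact Finset.mem_coe.mpr (Finset.mem_image.mpr ⟨_, hs', rfl⟩)
      · rintro ⟨r, c, s⟩ ht ⟨r', c', s'⟩ ht' heq
        simp only [Prod.mk.injEq] at heq
        obtain ⟨rfl, rfl⟩ := heq
        rw [h.plsB.1 r c s s' ht ht']
    exact h1.trans Finset.card_image_le
  · have h1 : W.card ≤ (B.image (fun t => (t.1, t.2.1))).card := by
      apply Finset.card_le_card_of_injOn (fun t => (t.1, t.2.1))
      · rintro ⟨r, c, s⟩ ht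
        obtain ⟨s', hs'⟩ := (h.cells r c).mp ⟨s, ht⟩
        exact Finset.mem_coe.mpr (Finset.mem_image.mpr ⟨_, hs', rfl⟩)
      · rintro ⟨r, c, s⟩ ht ⟨r', c', s'⟩ ht' heq
        simp only [Prod.mk.injEq] at heq
        obtain ⟨rfl, rfl⟩ := heq
        rw [h.plsW.1 r c s s' ht ht']
    exact h1.trans Finset.card_image_le

lemma bound (W B : Triples) (h : IsBitrade W B) (hne : (commonRanks W B).Nonempty) :
    2 ^ rho W B ≤ 13 * W.card ^ 2 := by
  classical
  obtain ⟨n, G, iG, iF, -, hW, hB⟩ := hne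
  obtain ⟨D1, hD1, hc1, h1⟩ := embeds_of_project W G hW
  obtain ⟨D2, hD2, hc2, h2⟩ := embeds_of_project B G hB
  rw [card_eq W B h] at hc2
  have hc := Finset.card_union_le D1 D2
  obtain ⟨M, r, χ, hM, hχ, hr⟩ := project G (D1 ∪ D2) (by rw [Finset.mem_union]; tauto)
  obtain ⟨hfg, hrank⟩ := rank_le_pi M r hM
  have hmem : AddGroup.rank (Fin r → ZMod M) ∈ commonRanks W B :=
    ⟨Fin r → ZMod M, inferInstance, hfg, rfl,
      h1 _ χ (fun d hd => hχ d (Finset.mem_union_left _ hd)),
      h2 _ χ (fun d hd => hχ d (Finset.mem_union_right _ hd))⟩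
  have h3 : rho W B ≤ r := (Nat.sInf_le hmem).trans hrank
  have h4 : 2 ^ rho W B ≤ 2 ^ r := Nat.pow_le_pow_right (by norm_num) h3
  have h5 : 0 < W.card ^ 2 := pow_pos (Finset.card_pos.mpr h.nonemptyW) 2
  omega

/-- The least rank of an abelian group in which both mates of a latin bitrade `(W, B)` embed grows
at most logarithmically in the size of the bitrade; in particular no family of bitrades has
linearly growing rank. -/
theorem result :
    (∀ W B : Triples, IsBitrade W B → (commonRanks W B).Nonempty →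
      2 ^ rho W B ≤ 13 * W.card ^ 2) ∧
    ¬ ∃ c : ℝ, 0 < c ∧ ∃ W B : ℕ → Triples,
      (∀ n, IsBitrade (W n) (B n)) ∧ (∀ n, (commonRanks (W n) (B n)).Nonempty) ∧
      Filter.Tendsto (fun n => (W n).card) Filter.atTop Filter.atTop ∧
      ∀ n, c * (W n).card ≤ rho (W n) (B n) := by
  refine ⟨bound, ?_⟩
  rintro ⟨c, hc, W, B, hbi, hne, htend, hle⟩
  have hlog : 0 < c * Real.log 2 := mul_pos hc (Real.log_pos (by norm_num))
  have h1 := isLittleO_pow_exp_pos_mul_atTop 2 hlog
  have h2 := h1.bound (show (0 : ℝ) < 1 / 26 by norm_num)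
  have h3 : Filter.Tendsto (fun n => ((W n).card : ℝ)) Filter.atTop Filter.atTop :=
    tendsto_natCast_atTop_atTop.comp htend
  have h4 := h3.eventually h2
  obtain ⟨n, hn⟩ := h4.exists
  have h5 := bound (W n) (B n) (hbi n) (hne n)
  have h6 : ((2 : ℝ)) ^ (rho (W n) (B n)) ≤ 13 * ((W n).card : ℝ) ^ 2 := by exact_mod_cast h5
  have h7 : Real.exp (c * Real.log 2 * (W n).card) ≤ (2 : ℝ) ^ (rho (W n) (B n)) := by
    rw [← Real.rpow_natCast, Real.rpow_def_of_pos (by norm_num)]
    apply Real.exp_le_exp.mpr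
    have := hle n
    have h8 : 0 < Real.log 2 := Real.log_pos (by norm_num)
    nlinarith
  rw [Real.norm_of_nonneg (by positivity), Real.norm_of_nonneg (Real.exp_pos _).le] at hn
  have h9 : 0 < Real.exp (c * Real.log 2 * (W n).card) := Real.exp_pos _
  linarith

end Pool.Agent.Results.MP_4671c3_co.LogarithmicRank
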